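import Mathlib

namespace Pool.Agent.Results.MP_8c719a_al.Yes

/-- `G` is an LCM-group. -/
def IsLCM (G : Type) [Group G] : Prop :=
  ∀ x : G, ∀ n : ℕ, ∀ y : G, orderOf (x ^ n * y) ∣ Nat.lcm (orderOf (x ^ n)) (orderOf y)

/-- `G` contains a subgroup isomorphic to each member of `F`. -/
def Cover (F : Set GrpCat.{0}) (G : Type) [Group G] : Prop :=
  ∀ H ∈ F, ∃ K : Subgroup G, Nonempty (H ≃* K)

/-- `G` is a finite cover of least order among finite covers. -/
def MinCover (F : Set GrpCat.{0}) (G : Type) [Group G] : Prop :=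
  Finite G ∧ Cover F G ∧
    ∀ (G' : Type) [Group G'], Finite G' → Cover F G' → Nat.card G ≤ Nat.card G'

/-- The two sets of groups have the same members up to isomorphism. -/
def Same (F F' : Set GrpCat.{0}) : Prop :=
  (∀ H ∈ F, ∃ H' ∈ F', Nonempty (H ≃* H')) ∧ ∀ H' ∈ F', ∃ H ∈ F, Nonempty (H ≃* H')

theorem lcm_of_exp {G : Type} [Group G] {p : ℕ} (hp : p.Prime) (h : ∀ g : G, g ^ p = 1) :
    IsLCM G := by
  intro x n y
  have ho : ∀ g : G, orderOf g = 1 ∨ orderOf g = p := fun g =>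
    (Nat.dvd_prime hp).1 (orderOf_dvd_of_pow_eq_one (h g))
  rcases ho (x ^ n) with h1 | h1
  · rw [orderOf_eq_one_iff.1 h1, one_mul]
    exact Nat.dvd_lcm_right _ _
  · exact (orderOf_dvd_of_pow_eq_one (h _)).trans (h1 ▸ Nat.dvd_lcm_left _ _)

theorem exists_min (F : Set GrpCat.{0}) (G : Type) [Group G] [Finite G] (h : Cover F G) :
    ∃ (H : Type) (_ : Group H), MinCover F H := by
  classical
  have hex : ∃ m : ℕ, ∃ (H : Type) (_ : Group H), Finite H ∧ Cover F H ∧ Nat.card H = m :=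
    ⟨_, G, inferInstance, inferInstance, h, rfl⟩
  obtain ⟨H, iH, h1, h2, h3⟩ := Nat.find_spec hex
  refine ⟨H, iH, h1, h2, fun G' iG h4 h5 => ?_⟩
  rw [h3]
  exact Nat.find_min' hex ⟨G', iG, h4, h5, rfl⟩

theorem key {p m : ℕ} (hp : p.Prime) {A B C H : Type} [Group A] [Group B] [Group C] [Group H]
    [Finite H] (hA : Nat.card A = p ^ m) (hAc : ∀ a b : A, a * b = b * a)
    (hAe : ∀ a : A, a ^ p = 1) (hBe : ∀ b : B, b ^ p = 1) (hB : ∃ a b : B, a * b ≠ b * a)
    (hC : ∃ c : C, c ^ p ≠ 1) (hH : Nat.card H ≤ p ^ (m + 1))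
    (KA : Subgroup H) (eA : A ≃* KA) (KB : Subgroup H) (eB : B ≃* KB) (KC : Subgroup H)
    (eC : C ≃* KC) : ¬ IsLCM H := by
  intro hL
  haveI := Fact.mk hp
  let Om : Subgroup H :=
    { carrier := {g | g ^ p = 1}
      one_mem' := one_pow _
      mul_mem' := fun {a b} ha hb => by
        have := hL a 1 b
        rw [pow_one] at this
        exact orderOf_dvd_iff_pow_eq_one.1 (this.trans
          (Nat.lcm_dvd (orderOf_dvd_of_pow_eq_one ha) (orderOf_dvd_of_pow_eq_one hb)))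
      inv_mem' := fun {a} ha => by
        change a⁻¹ ^ p = 1
        rw [inv_pow, show a ^ p = 1 from ha, inv_one] }
  have sub : ∀ {X : Type} [Group X] (K : Subgroup H) (_ : X ≃* K), (∀ x : X, x ^ p = 1) →
      K ≤ Om := by
    intro X _ K e h g hg
    have : (⟨g, hg⟩ : K) ^ p = 1 := by
      rw [← e.apply_symm_apply ⟨g, hg⟩, ← map_pow, h, map_one]
    exact congrArg Subtype.val this
  have hAO := sub KA eA hAe
  have hBO := sub KB eB hBe
  have hP : IsPGroup p Om := fun g => ⟨1, Subtype.ext (by rw [pow_one]; exact g.2)⟩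
  obtain ⟨j, hj⟩ := IsPGroup.iff_card.1 hP
  have hKA : Nat.card KA = p ^ m := by rw [← hA]; exact (Nat.card_congr eA.toEquiv).symm
  have hlt : p ^ m < p ^ j := by
    rw [← hj, ← hKA]
    by_contra hle
    have heq : KA = Om := Subgroup.eq_of_le_of_card_ge hAO (not_lt.1 hle)
    obtain ⟨a, b, hab⟩ := hB
    apply hab
    apply eB.injective
    apply Subtype.ext
    have ha : ((eB a : KB) : H) ∈ KA := heq ▸ hBO (eB a).2
    have hb : ((eB b : KB) : H) ∈ KA := heq ▸ hBO (eB b).2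
    have := congrArg (fun z => ((eA z : KA) : H)) (hAc (eA.symm ⟨_, ha⟩) (eA.symm ⟨_, hb⟩))
    simpa using this
  have hj' : m + 1 ≤ j := (Nat.pow_lt_pow_iff_right hp.one_lt).1 hlt
  have htop : Om = ⊤ := by
    apply Subgroup.eq_top_of_le_card
    rw [hj]
    exact hH.trans (Nat.pow_le_pow_right hp.pos hj')
  obtain ⟨c, hc⟩ := hC
  apply hc
  apply eC.injective
  apply Subtype.ext
  have : ((eC c : KC) : H) ∈ Om := htop ▸ Subgroup.mem_top _
  simpa using (show ((eC c : KC) : H) ^ p = 1 from this)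

section W

variable {D Q : Type} [CommGroup D] [CommGroup Q] [Fintype Q]

omit [Fintype Q] in
theorem pow_left (g : D ≀ᵣ Q) (n : ℕ) (x : Q) :
    (g ^ n).left x = ∏ i ∈ Finset.range n, g.left (g.right⁻¹ ^ i * x) := by
  induction n generalizing x with
  | zero => simp
  | succ n ih =>
    rw [pow_succ', RegularWreathProduct.mul_left, Finset.prod_range_succ']
    simp only [Pi.mul_apply, ih, pow_zero, one_mul]
    rw [mul_comm]
    congr 1
    refine Finset.prod_congr rfl fun i _ => ?_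
    rw [pow_succ, mul_assoc]

omit [Fintype Q] in
theorem pow_right (g : D ≀ᵣ Q) (n : ℕ) : (g ^ n).right = g.right ^ n :=
  map_pow RegularWreathProduct.rightHom g n

/-- product of the coordinates -/
def nm : D ≀ᵣ Q →* D where
  toFun g := ∏ y, g.left y
  map_one' := by simp
  map_mul' a b := by
    simp only [RegularWreathProduct.mul_left, Pi.mul_apply, Finset.prod_mul_distrib]
    congr 1
    exact Fintype.prod_equiv (Equiv.mulLeft a.right⁻¹) _ _ fun _ => rfl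

theorem pow_p {p : ℕ} (hp : p.Prime) (hQ : Fintype.card Q = p) (g : D ≀ᵣ Q) (h : g.right ≠ 1)
    (x : Q) : (g ^ p).left x = nm g := by
  classical
  rw [pow_left]
  have ho : orderOf g.right⁻¹ = p := by
    have : orderOf g.right⁻¹ ∣ p := hQ ▸ orderOf_dvd_card
    rcases (Nat.dvd_prime hp).1 this with h1 | h1
    · exact absurd (inv_eq_one.1 (orderOf_eq_one_iff.1 h1)) h
    · exact h1
  refine Finset.prod_nbij (fun i => g.right⁻¹ ^ i * x) (fun _ _ => Finset.mem_univ _) ?_ ?_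
    (fun _ _ => rfl)
  · intro i hi j hj hij
    exact pow_injOn_Iio_orderOf (x := g.right⁻¹) (by simpa [ho] using hi) (by simpa [ho] using hj)
      (mul_right_cancel hij)
  · apply Finset.surjOn_of_injOn_of_card_le _ (fun _ _ => Finset.mem_coe.2 (Finset.mem_univ _))
    · intro i hi j hj hij
      exact pow_injOn_Iio_orderOf (x := g.right⁻¹) (by simpa [ho] using hi)
        (by simpa [ho] using hj) (mul_right_cancel hij)
    · simp [hQ]

theorem base_exp {p : ℕ} (hD : ∀ d : D, d ^ p = 1) (g : D ≀ᵣ Q) (h : g.right = 1) :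
    g ^ p = 1 := by
  ext x
  · rw [pow_left, h]
    simp [hD]
  · rw [pow_right, h]
    simp

theorem ker_exp {p : ℕ} (hp : p.Prime) (hQ : Fintype.card Q = p) (hD : ∀ d : D, d ^ p = 1)
    (g : D ≀ᵣ Q) (h : nm g = 1) : g ^ p = 1 := by
  by_cases h1 : g.right = 1
  · exact base_exp hD g h1
  · ext x
    · rw [pow_p hp hQ g h1, h]
      rfl
    · rw [pow_right, ← hQ, pow_card_eq_one]
      rfl

theorem pp_exp {p : ℕ} (hQ : Fintype.card Q = p) (hD : ∀ d : D, d ^ p = 1)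
    (g : D ≀ᵣ Q) : g ^ p ^ 2 = 1 := by
  rw [sq, pow_mul]
  exact base_exp hD _ (by rw [pow_right, ← hQ, pow_card_eq_one])

theorem fam {p k : ℕ} (hp : p.Prime) (h2 : p ≠ 2) (hQ : Fintype.card Q = p) [Finite D]
    (hD : ∀ d : D, d ^ p = 1) (hk : Nat.card D = p ^ (k + 1)) :
    ∃ F : Set GrpCat.{0}, F.Finite ∧ (∀ H ∈ F, Finite H ∧ IsPGroup p H ∧ IsLCM H) ∧
      (∃ (G : Type) (_ : Group G), MinCover F G) ∧
      (∀ (G : Type) [Group G], MinCover F G → ¬ IsLCM G) ∧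
      (∃ H ∈ F, Nat.card H = p ^ ((k + 1) * p)) ∧
      ∀ H ∈ F, Nat.card H ≤ p ^ ((k + 1) * p + 1) := by
  classical
  have hG : Nat.card (D ≀ᵣ Q) = p ^ ((k + 1) * p + 1) := by
    rw [RegularWreathProduct.card, hk, Nat.card_eq_fintype_card, hQ, ← pow_mul, pow_succ]
  haveI : Nontrivial D := by
    apply Finite.one_lt_card_iff_nontrivial.1
    rw [hk]
    exact Nat.one_lt_pow (by omega) hp.one_lt
  haveI : Nontrivial Q := Fintype.one_lt_card_iff_nontrivial.1 (hQ ▸ hp.one_lt)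
  obtain ⟨d, hd⟩ := exists_ne (1 : D)
  obtain ⟨t, ht⟩ := exists_ne (1 : Q)
  have ht2 : t⁻¹ ≠ t := by
    intro h
    have h3 : orderOf t ∣ 2 := orderOf_dvd_of_pow_eq_one (by rw [sq]; nth_rw 1 [← h]; simp)
    have h4 : orderOf t ∣ p := hQ ▸ orderOf_dvd_card
    rcases (Nat.dvd_prime hp).1 h4 with h1 | h1
    · exact ht (orderOf_eq_one_iff.1 h1)
    · rw [h1] at h3
      exact h2 ((Nat.prime_dvd_prime_iff_eq hp Nat.prime_two).1 h3)
  let A : Subgroup (D ≀ᵣ Q) := (RegularWreathProduct.rightHom).ker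
  let B : Subgroup (D ≀ᵣ Q) := (nm : D ≀ᵣ Q →* D).ker
  let c : D ≀ᵣ Q := ⟨Pi.mulSingle 1 d, t⟩
  let C : Subgroup (D ≀ᵣ Q) := Subgroup.zpowers c
  have hA : Nat.card A = p ^ ((k + 1) * p) := by
    have h1 := (RegularWreathProduct.rightHom : D ≀ᵣ Q →* Q).ker.card_mul_index
    rw [Subgroup.index_ker, MonoidHom.range_eq_top.2 (fun q => ⟨⟨1, q⟩, rfl⟩), hG,
      Subgroup.card_top, Nat.card_eq_fintype_card (α := Q), hQ, pow_succ] at h1
    exact Nat.eq_of_mul_eq_mul_right hp.pos h1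
  have hAc : ∀ a b : A, a * b = b * a := by
    intro a b
    have ha : a.1.right = 1 := a.2
    have hb : b.1.right = 1 := b.2
    apply Subtype.ext
    ext x
    · simp [ha, hb, mul_comm]
    · simp [ha, hb]
  have hAe : ∀ a : A, a ^ p = 1 := fun a => Subtype.ext (base_exp hD a.1 a.2)
  have hBe : ∀ b : B, b ^ p = 1 := fun b => Subtype.ext (ker_exp hp hQ hD b.1 b.2)
  have hB : ∃ a b : B, a * b ≠ b * a := by
    refine ⟨⟨⟨1, t⟩, by simp [B, nm]⟩, ⟨⟨Pi.mulSingle 1 d * Pi.mulSingle t d⁻¹, 1⟩, ?_⟩, ?_⟩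
    · simp [B, nm, Finset.prod_mul_distrib]
    · intro h
      have := congrArg (fun z : B => z.1.left 1) h
      simp [Pi.mulSingle_apply, ht, ht2, ht.symm] at this
      exact hd this.symm
  have hC : ∃ z : C, z ^ p ≠ 1 := by
    refine ⟨⟨c, Subgroup.mem_zpowers c⟩, fun h => ?_⟩
    have h1 : c ^ p = 1 := congrArg Subtype.val h
    have h3 := pow_p hp hQ c ht 1
    rw [h1] at h3
    simp [nm, c] at h3
    exact hd h3.symm
  have hPG : IsPGroup p (D ≀ᵣ Q) := fun g => ⟨2, pp_exp hQ hD g⟩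
  let F : Set GrpCat.{0} := {GrpCat.of A, GrpCat.of B, GrpCat.of C}
  have hcov : Cover F (D ≀ᵣ Q) := by
    rintro H (rfl | rfl | rfl)
    exacts [⟨A, ⟨MulEquiv.refl _⟩⟩, ⟨B, ⟨MulEquiv.refl _⟩⟩, ⟨C, ⟨MulEquiv.refl _⟩⟩]
  refine ⟨F, Set.toFinite _, ?_, exists_min F _ hcov, ?_, ⟨GrpCat.of A, by simp [F], hA⟩, ?_⟩
  · rintro H (rfl | rfl | rfl)
    · exact ⟨inferInstanceAs (Finite A), hPG.to_subgroup A, lcm_of_exp hp hAe⟩
    · exact ⟨inferInstanceAs (Finite B), hPG.to_subgroup B, lcm_of_exp hp hBe⟩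
    · refine ⟨inferInstanceAs (Finite C), hPG.to_subgroup C, fun x n y => ?_⟩
      exact Commute.orderOf_mul_dvd_lcm (mul_comm' (M := C) _ _)
  · intro G _ ⟨h1, h3, h4⟩
    obtain ⟨KA, ⟨eA⟩⟩ := h3 (GrpCat.of A) (by simp [F])
    obtain ⟨KB, ⟨eB⟩⟩ := h3 (GrpCat.of B) (by simp [F])
    obtain ⟨KC, ⟨eC⟩⟩ := h3 (GrpCat.of C) (by simp [F])
    exact key hp hA hAc hAe hBe hB hC (hG ▸ h4 _ inferInstance hcov) KA eA KB eB KC eC
  · rintro H (rfl | rfl | rfl) <;> exact hG ▸ Subgroup.card_le_card_group _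

end W

theorem result (p : ℕ) (hp : p.Prime) (h2 : p ≠ 2) :
    ∃ F : ℕ → Set GrpCat.{0}, (∀ m n, Same (F m) (F n) → m = n) ∧
      ∀ n, (F n).Finite ∧ (∀ H ∈ F n, Finite H ∧ IsPGroup p H ∧ IsLCM H) ∧
        (∃ (G : Type) (_ : Group G), MinCover (F n) G) ∧
        ∀ (G : Type) [Group G], MinCover (F n) G → ¬ IsLCM G := by
  haveI := Fact.mk hp
  have h : ∀ k : ℕ, _ := fun k => fam (D := Fin (k + 1) → Multiplicative (ZMod p))
    (Q := Multiplicative (ZMod p)) (k := k) hp h2 (by simp)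
    (fun d => funext fun i => by
      have := pow_card_eq_one (x := d i)
      simpa using this) (by simp)
  choose F h1 h3 h4 h5 h6 h7 using h
  have lt : ∀ m n, m < n → ∀ H ∈ F m, ∀ H' : GrpCat.{0}, Nat.card H' = p ^ ((n + 1) * p) →
      Nat.card H ≠ Nat.card H' := by
    intro m n hmn H hH H' hH' he
    have h8 := h7 m H hH
    rw [he, hH', Nat.pow_le_pow_iff_right hp.one_lt] at h8
    have := hp.two_le
    nlinarith
  refine ⟨F, fun m n hs => ?_, fun n => ⟨h1 n, h3 n, h4 n, h5 n⟩⟩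
  rcases lt_trichotomy m n with hmn | hmn | hmn
  · obtain ⟨H', hH', hc⟩ := h6 n
    obtain ⟨H, hH, ⟨e⟩⟩ := hs.2 H' hH'
    exact absurd (Nat.card_congr e.toEquiv) (lt m n hmn H hH H' hc)
  · exact hmn
  · obtain ⟨H', hH', hc⟩ := h6 m
    obtain ⟨H, hH, ⟨e⟩⟩ := hs.1 H' hH'
    exact absurd (Nat.card_congr e.toEquiv).symm (lt n m hmn H hH H' hc)

end Pool.Agent.Results.MP_8c719a_al.Yes
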